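import Pool.Agent.Q82.QD.Stm
import Pool.Agent.Q16.QC_LAP

/-!
# Project QD (helper82), job RAD
-/

set_option autoImplicit false

open MeasureTheory Filter Topology Real InnerProductSpace Laplacian Set
open Pool.Agent.Q82.QC (E Om pp lg bd pot mol Ctl HolderConv)

namespace Pool.Agent.Q256.QD

open Pool.Agent.Q82.QD

/-- the Laplacian away from the origin -/
lemma rad_ne (h2 : S_LOP) (f : ℝ → ℝ) (hf : Continuous f) (z : E) (hz : z ≠ 0) :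
    Δ (fun y : E => Lop f (‖y‖ ^ 2)) z = f (‖z‖ ^ 2) := by
  have hs : 0 < ‖z‖ ^ 2 := by
    have := norm_pos_iff.2 hz
    positivity
  obtain ⟨_, hd, hform, _⟩ := h2 f hf
  have hc : Continuous (fun t : ℝ => t / 4 * f t) := (continuous_id.div_const 4).mul hf
  have hI : HasDerivAt (fun s : ℝ => ∫ t in (0 : ℝ)..s, t / 4 * f t)
      (‖z‖ ^ 2 / 4 * f (‖z‖ ^ 2)) (‖z‖ ^ 2) :=
    (hc.integral_hasStrictDerivAt 0 (‖z‖ ^ 2)).hasDerivAt
  have hinv : HasDerivAt (fun s : ℝ => (s ^ 2)⁻¹) (-(2 * ‖z‖ ^ 2) / ((‖z‖ ^ 2) ^ 2) ^ 2)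
      (‖z‖ ^ 2) := by
    have h3 : HasDerivAt (fun s : ℝ => s ^ 2) (2 * ‖z‖ ^ 2) (‖z‖ ^ 2) := by
      have := hasDerivAt_pow 2 (‖z‖ ^ 2)
      simpa using this
    exact h3.inv (by positivity)
  have h := Pool.Agent.Q82.QC.lap_radial (Lop f)
    (fun s => (s ^ 2)⁻¹ * ∫ t in (0 : ℝ)..s, t / 4 * f t)
    (-(2 * ‖z‖ ^ 2) / ((‖z‖ ^ 2) ^ 2) ^ 2 * (∫ t in (0 : ℝ)..(‖z‖ ^ 2), t / 4 * f t) +
      ((‖z‖ ^ 2) ^ 2)⁻¹ * (‖z‖ ^ 2 / 4 * f (‖z‖ ^ 2))) z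
    (by
      filter_upwards [lt_mem_nhds hs] with s hs'
      rw [← hform s hs']
      exact hd s)
    (hinv.mul hI)
  rw [h]
  generalize (∫ t in (0 : ℝ)..(‖z‖ ^ 2), t / 4 * f t) = I
  generalize f (‖z‖ ^ 2) = w
  have hz' : ‖z‖ ≠ 0 := norm_ne_zero_iff.2 hz
  field_simp
  ring

lemma continuous_lap (u : E → ℝ) (hu : ContDiff ℝ 2 u) : Continuous (Δ u) := by
  rw [laplacian_eq_iteratedFDeriv_orthonormalBasis _ (EuclideanSpace.basisFun (Fin 4) ℝ)]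
  refine continuous_finsetSum _ fun i _ => ?_
  have h1 : Continuous (iteratedFDeriv ℝ 2 u) := hu.continuous_iteratedFDeriv (by norm_num)
  exact (ContinuousMultilinearMap.apply ℝ (fun _ : Fin 2 => E) ℝ
    ![(EuclideanSpace.basisFun (Fin 4) ℝ) i, (EuclideanSpace.basisFun (Fin 4) ℝ) i]).continuous.comp h1

theorem rad (h1 : S_LSM) (h2 : S_LOP) : S_RAD := by
  intro f hf hfs
  have hsm : ∀ n : ℕ, ContDiff ℝ n (fun y : E => Lop f (‖y‖ ^ 2)) := by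
    intro n
    have h3 : ContDiffOn ℝ (n + 1 : ℕ) (Lop f) (Ici 0) := h1 f hf n (hfs n)
    have h4 : ContDiff ℝ (n + 1 : ℕ) (fun y : E => ‖y‖ ^ 2) := contDiff_norm_sq ℝ
    have hm : MapsTo (fun y : E => ‖y‖ ^ 2) univ (Ici 0) := fun y _ => by
      show (0 : ℝ) ≤ ‖y‖ ^ 2
      positivity
    have h5 := h3.comp h4.contDiffOn hm
    exact (contDiffOn_univ.1 h5).of_le (by exact_mod_cast Nat.le_succ n)
  refine ⟨hsm, ?_⟩
  have hc1 : Continuous (Δ (fun y : E => Lop f (‖y‖ ^ 2))) :=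
    continuous_lap _ (by exact_mod_cast hsm 2)
  have hc2 : Continuous (fun y : E => f (‖y‖ ^ 2)) := hf.comp (continuous_norm.pow 2)
  have hdense : Dense ({0}ᶜ : Set E) := dense_compl_singleton 0
  have heq := hc1.ext_on hdense hc2 (fun z hz => rad_ne h2 f hf z hz)
  intro y
  exact congrFun heq y

end Pool.Agent.Q256.QD
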